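import Pool.Agent.Helper12.GD.St

/-!
# Project GD, module BAL: balls of radius seven
-/

set_option autoImplicit false

open Finset MP86d903 Pool.Agent.Helper82.RD Pool.Agent.Helper12.GD

namespace Pool.Agent.Helper27.GD

lemma Ad_symm {ι V : Type} [DecidableEq V] {vs : ι → Finset V} {A : Finset V}
    {x y : V} (h : Ad vs A x y) : Ad vs A y x := by
  obtain ⟨h1, h2, h3⟩ := h
  refine ⟨h2, h1, ?_⟩
  rcases h3 with h3 | ⟨c, hx, hy⟩
  · exact Or.inl h3.symm
  · exact Or.inr ⟨c, hy, hx⟩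

open Classical in
/-- the neighbours of `u` -/
noncomputable def nb1 {ι V : Type} [Fintype V] [DecidableEq V] (vs : ι → Finset V)
    (A : Finset V) (u : V) : Finset V := univ.filter (fun v => Ad vs A u v)

open Classical in
/-- the neighbours of the elements of `Y` -/
noncomputable def nb {ι V : Type} [Fintype V] [DecidableEq V] (vs : ι → Finset V)
    (A : Finset V) (Y : Finset V) : Finset V := Y.biUnion (nb1 vs A)

lemma mem_nb {ι V : Type} [Fintype V] [DecidableEq V] {vs : ι → Finset V}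
    {A Y : Finset V} {u v : V} (hu : u ∈ Y) (h : Ad vs A u v) : v ∈ nb vs A Y := by
  classical
  unfold nb
  rw [mem_biUnion]
  refine ⟨u, hu, ?_⟩
  unfold nb1
  rw [mem_filter]
  exact ⟨mem_univ _, h⟩

lemma nb1_card {ι V : Type} [DecidableEq ι] [Fintype ι] [Fintype V] [DecidableEq V]
    {vs : ι → Finset V} (h3 : ∀ c, (vs c).card = 3) {A : Finset V} {D : ℕ}
    (hD : ∀ x, x ∉ A → (univ.filter (fun c => x ∈ vs c)).card ≤ D) (u : V) :
    (nb1 vs A u).card ≤ 3 * D + 1 := by
  classical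
  by_cases hu : u ∈ A
  · have h0 : nb1 vs A u = ∅ := by
      unfold nb1
      refine filter_eq_empty_iff.2 (fun v _ h => h.1 hu)
    rw [h0]
    simp
  · have h1 : nb1 vs A u ⊆ insert u ((univ.filter (fun c => u ∈ vs c)).biUnion vs) := by
      intro v hv
      unfold nb1 at hv
      rw [mem_filter] at hv
      obtain ⟨_, _, _, h⟩ := hv
      rw [mem_insert, mem_biUnion]
      rcases h with h | ⟨c, hc, hv⟩
      · exact Or.inl h.symm
      · exact Or.inr ⟨c, by simp [hc], hv⟩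
    have h2 : ((univ.filter (fun c => u ∈ vs c)).biUnion vs).card ≤
        (univ.filter (fun c => u ∈ vs c)).card * 3 :=
      card_biUnion_le_card_mul _ _ _ (fun c _ => (h3 c).le)
    have h4 := hD u hu
    calc (nb1 vs A u).card ≤ _ := card_le_card h1
      _ ≤ ((univ.filter (fun c => u ∈ vs c)).biUnion vs).card + 1 := card_insert_le _ _
      _ ≤ (univ.filter (fun c => u ∈ vs c)).card * 3 + 1 := by omega
      _ ≤ 3 * D + 1 := by omega

lemma nb_card {ι V : Type} [DecidableEq ι] [Fintype ι] [Fintype V] [DecidableEq V]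
    {vs : ι → Finset V} (h3 : ∀ c, (vs c).card = 3) {A : Finset V} {D : ℕ}
    (hD : ∀ x, x ∉ A → (univ.filter (fun c => x ∈ vs c)).card ≤ D) (Y : Finset V) :
    (nb vs A Y).card ≤ Y.card * (3 * D + 1) := by
  unfold nb
  convert card_biUnion_le_card_mul Y (nb1 vs A) (3 * D + 1) (fun u _ => nb1_card h3 hD u)

theorem hBAL : StBAL := by
  classical
  intro ι V _ _ _ _ vs h3 A D hD
  refine ⟨?_, ?_, ?_⟩
  · rintro x y ⟨a, b, c, d, e, f, h1, h2, h3, h4, h5, h6, h7⟩
    exact ⟨f, e, d, c, b, a, Ad_symm h7, Ad_symm h6, Ad_symm h5, Ad_symm h4, Ad_symm h3,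
      Ad_symm h2, Ad_symm h1⟩
  · intro x hx
    have h : Ad vs A x x := ⟨hx, hx, Or.inl rfl⟩
    exact ⟨x, x, x, x, x, x, h, h, h, h, h, h, h⟩
  · intro x _
    have hN : N7 vs A x ⊆ nb vs A (nb vs A (nb vs A (nb vs A (nb vs A (nb vs A
        (nb vs A {x})))))) := by
      intro y hy
      unfold N7 at hy
      rw [mem_filter] at hy
      obtain ⟨_, a, b, c, d, e, f, h1, h2, h3, h4, h5, h6, h7⟩ := hy
      exact mem_nb (mem_nb (mem_nb (mem_nb (mem_nb (mem_nb (mem_nb (mem_singleton_self x)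
        h1) h2) h3) h4) h5) h6) h7
    have hc : ∀ Y : Finset V, (nb vs A Y).card ≤ Y.card * (3 * D + 1) := nb_card h3 hD
    have hs : ∀ (k : ℕ) (Y : Finset V), Y.card ≤ (3 * D + 1) ^ k →
        (nb vs A Y).card ≤ (3 * D + 1) ^ (k + 1) := by
      intro k Y hY
      rw [pow_succ]
      exact (hc Y).trans (Nat.mul_le_mul_right _ hY)
    refine (card_le_card hN).trans ?_
    exact hs 6 _ (hs 5 _ (hs 4 _ (hs 3 _ (hs 2 _ (hs 1 _ (hs 0 _ (by simp)))))))

end Pool.Agent.Helper27.GD
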